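import Pool.Agent.R737.PK.Stm

/-!
# Pieces EVAL and REAL of the peak polynomial project (MP_8cb80e_co)
-/

set_option autoImplicit false

open Polynomial MeasureTheory

namespace Pool.Agent.R737.PK

/-! ## The antiderivative -/

theorem anti_eval (f : ℝ[X]) (m : ℕ) (hm : f.natDegree < m) (y : ℝ) :
    (anti f).eval y = ∑ l ∈ Finset.range m, f.coeff l / (l + 1) * y ^ (l + 1) := by
  unfold anti
  rw [Polynomial.sum_over_range' f (fun n => by simp) m hm, Polynomial.eval_finsetSum]
  refine Finset.sum_congr rfl fun l _ => ?_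
  rw [eval_monomial]

theorem J_eval (f : ℝ[X]) (m : ℕ) (hm : f.natDegree < m) (y : ℝ) :
    (J f).eval y = ∑ l ∈ Finset.range m, f.coeff l / (l + 1) * (1 - y ^ (l + 1)) := by
  unfold J
  rw [eval_sub, eval_C, anti_eval f m hm, anti_eval f m hm, ← Finset.sum_sub_distrib]
  refine Finset.sum_congr rfl fun l _ => ?_
  simp only [one_pow]
  ring

theorem derivative_anti (f : ℝ[X]) : derivative (anti f) = f := by
  unfold anti
  rw [Polynomial.sum_over_range f (fun n => by simp), derivative_sum]
  conv_rhs => rw [f.as_sum_range]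
  refine Finset.sum_congr rfl fun l _ => ?_
  rw [derivative_monomial]
  congr 1
  have : (l : ℝ) + 1 ≠ 0 := by positivity
  push_cast
  field_simp

theorem derivative_J (f : ℝ[X]) : derivative (J f) = - f := by
  unfold J
  rw [derivative_sub, derivative_C, derivative_anti, zero_sub]

theorem J_eval_one (f : ℝ[X]) : (J f).eval 1 = 0 := by
  unfold J
  simp

theorem integral_J (f : ℝ[X]) (s : ℝ) : (J f).eval s = ∫ x in s..1, f.eval x := by
  have h := intervalIntegral.integral_eq_sub_of_hasDerivAt (a := s) (b := 1)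
    (f := fun x => (anti f).eval x) (f' := fun x => f.eval x)
    (fun x _ => by
      have := (anti f).hasDerivAt x
      rwa [derivative_anti] at this)
    (f.continuous.intervalIntegrable _ _)
  rw [h]
  unfold J
  simp

/-! ## EVAL -/

theorem integrable_rpow_poly (z : ℝ) (hz : 0 < z) (f : ℝ → ℝ) (hf : Continuous f) :
    IntervalIntegrable (fun y : ℝ => y ^ (z - 1) * f y) volume 0 1 := by
  apply IntervalIntegrable.mul_continuousOn
  · exact intervalIntegral.intervalIntegrable_rpow' (by linarith)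
  · exact hf.continuousOn

theorem int_term (z : ℝ) (hz : 0 < z) (l : ℕ) :
    ∫ y in (0 : ℝ)..1, y ^ (z - 1) * (1 - y ^ (l + 1)) = 1 / z - 1 / (z + l + 1) := by
  have h1 : ∀ y : ℝ, y ^ (z - 1) * (1 - y ^ (l + 1)) = y ^ (z - 1) - y ^ (z - 1) * y ^ (l + 1) := by
    intro y; ring
  simp_rw [h1]
  rw [intervalIntegral.integral_sub (intervalIntegral.intervalIntegrable_rpow' (by linarith))
    (integrable_rpow_poly z hz _ (by fun_prop))]
  congr 1
  · rw [integral_rpow (Or.inl (by linarith))]
    have : z - 1 + 1 = z := by ring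
    rw [this, Real.one_rpow, Real.zero_rpow hz.ne']
    simp
  · have h2 : ∫ y in (0 : ℝ)..1, y ^ (z - 1) * y ^ (l + 1) = ∫ y in (0 : ℝ)..1, y ^ (z + l) := by
      apply intervalIntegral.integral_congr
      intro y hy
      rw [Set.uIcc_of_le zero_le_one] at hy
      have hl : (0 : ℝ) ≤ l := by positivity
      rcases eq_or_lt_of_le hy.1 with h | h
      · simp only [← h]
        rw [zero_pow (by omega), mul_zero, Real.zero_rpow (by linarith)]
      · simp only
        rw [← Real.rpow_natCast y (l + 1), ← Real.rpow_add h]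
        congr 1
        push_cast
        ring
    rw [h2, integral_rpow (Or.inl (by
      have hl : (0 : ℝ) ≤ l := by positivity
      linarith))]
    have hl : (0 : ℝ) ≤ l := by positivity
    rw [Real.one_rpow, Real.zero_rpow (by linarith)]
    simp

theorem zK (ρ : ℝ[X]) (m : ℕ) (hm : ρ.natDegree < m) (z : ℝ) (hz : 0 < z) :
    z * K ρ z = ∑ l ∈ Finset.range m, ρ.coeff l / (z + l + 1) := by
  unfold K
  have h1 : ∀ y : ℝ, y ^ (z - 1) * (J ρ).eval y =
      ∑ l ∈ Finset.range m, ρ.coeff l / (l + 1) * (y ^ (z - 1) * (1 - y ^ (l + 1))) := by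
    intro y
    rw [J_eval ρ m hm, Finset.mul_sum]
    refine Finset.sum_congr rfl fun l _ => by ring
  simp_rw [h1]
  rw [intervalIntegral.integral_finsetSum]
  · rw [Finset.mul_sum]
    refine Finset.sum_congr rfl fun l _ => ?_
    rw [intervalIntegral.integral_const_mul, int_term z hz l]
    have hl : (0 : ℝ) ≤ l := by positivity
    have h2 : (l : ℝ) + 1 ≠ 0 := by positivity
    have h3 : z + l + 1 ≠ 0 := by positivity
    field_simp
    ring
  · intro l _
    exact (integrable_rpow_poly z hz _ (by fun_prop)).const_mul _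

theorem stEval : StEval := by
  intro m P ρ hR z hz
  obtain ⟨hm, hR⟩ := hR
  have hf : (m.factorial : ℝ) ≠ 0 := by positivity
  have h := hR z
  rw [zK ρ m hm z hz]
  unfold bin
  rw [div_mul_eq_mul_div, eq_div_iff hf, h, Finset.mul_sum]
  refine Finset.sum_congr rfl fun l hl => ?_
  rw [← Finset.mul_prod_erase _ _ hl]
  have h3 : z + l + 1 ≠ 0 := by positivity
  field_simp

/-! ## REAL -/

section real

variable {ρ : ℝ[X]} (hρ : Good ρ)

include hρ

theorem good_half : ρ.eval (1 / 2) = 0 := by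
  have h := hρ.anti (1 / 2)
  norm_num at h ⊢
  linarith

theorem good_nonneg (s : ℝ) (h1 : 1 / 2 ≤ s) (h2 : s ≤ 1) : 0 ≤ ρ.eval s := by
  have hmono : MonotoneOn (fun x => ρ.eval x) (Set.Icc 0 1) := by
    apply monotoneOn_of_deriv_nonneg (convex_Icc 0 1) ρ.continuous.continuousOn
      ρ.differentiable.differentiableOn
    intro x hx
    rw [interior_Icc] at hx
    rw [Polynomial.deriv]
    exact hρ.mono x hx.1.le hx.2.le
  have h := hmono (show (1 / 2 : ℝ) ∈ Set.Icc 0 1 by constructor <;> norm_num)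
    (show s ∈ Set.Icc (0 : ℝ) 1 from ⟨by linarith, h2⟩) h1
  simp only at h
  rwa [good_half hρ] at h

theorem J_symm (s : ℝ) : (J ρ).eval (1 - s) = (J ρ).eval s := by
  rw [integral_J, integral_J]
  have h1 : ∫ x in s..(1 - s), ρ.eval x = 0 := by
    have h2 : ∫ x in s..(1 - s), ρ.eval (1 - x) = ∫ x in s..(1 - s), ρ.eval x := by
      rw [intervalIntegral.integral_comp_sub_left (fun x => ρ.eval x) 1]
      congr 1
      ring
    have h3 : ∫ x in s..(1 - s), ρ.eval (1 - x) = - ∫ x in s..(1 - s), ρ.eval x := by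
      simp_rw [hρ.anti]
      rw [intervalIntegral.integral_neg]
    linarith
  have h4 := intervalIntegral.integral_add_adjacent_intervals
    (ρ.continuous.intervalIntegrable s (1 - s) (μ := volume))
    (ρ.continuous.intervalIntegrable (1 - s) 1 (μ := volume))
  linarith

theorem J_pos_half (s : ℝ) (h1 : 1 / 2 ≤ s) (h2 : s < 1) : 0 < (J ρ).eval s := by
  rw [integral_J]
  apply intervalIntegral.integral_pos h2 ρ.continuous.continuousOn
  · intro x hx
    exact good_nonneg hρ x (by linarith [hx.1]) hx.2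
  · exact ⟨1, ⟨h2.le, le_refl _⟩, hρ.pos⟩

theorem J_pos (s : ℝ) (h1 : 0 < s) (h2 : s < 1) : 0 < (J ρ).eval s := by
  rcases le_total (1 / 2) s with h | h
  · exact J_pos_half hρ s h h2
  · rw [← J_symm hρ]
    exact J_pos_half hρ _ (by linarith) (by linarith)

theorem J_nonneg (s : ℝ) (h1 : 0 ≤ s) (h2 : s ≤ 1) : 0 ≤ (J ρ).eval s := by
  rcases eq_or_lt_of_le h2 with h | h
  · rw [h, J_eval_one]
  rcases eq_or_lt_of_le h1 with h' | h'
  · rw [← h', ← J_symm hρ, sub_zero, J_eval_one]
  exact (J_pos hρ s h' h).le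

theorem K_pos (z : ℝ) (hz : 0 < z) : 0 < K ρ z := by
  unfold K
  apply intervalIntegral.intervalIntegral_pos_of_pos_on
    (integrable_rpow_poly z hz _ (J ρ).continuous)
  · intro x hx
    exact mul_pos (Real.rpow_pos_of_pos hx.1 _) (J_pos hρ x hx.1 hx.2)
  · norm_num

theorem K_ge_one (z : ℝ) (hz : 0 < z) (hz1 : z ≤ 1) : M ρ 0 ≤ K ρ z := by
  unfold M K
  apply intervalIntegral.integral_mono_on_of_le_Ioo zero_le_one
  · exact (by fun_prop : Continuous fun y : ℝ => y ^ 0 * (J ρ).eval y).intervalIntegrable _ _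
  · exact integrable_rpow_poly z hz _ (J ρ).continuous
  · intro x hx
    apply mul_le_mul_of_nonneg_right _ (J_nonneg hρ x hx.1.le hx.2.le)
    rw [pow_zero]
    exact Real.one_le_rpow_of_pos_of_le_one_of_nonpos hx.1 hx.2.le (by linarith)

theorem K_ge_two (z : ℝ) (hz : 1 ≤ z) (hz1 : z ≤ 2) :
    M ρ 1 + (2 - z) * (M ρ 1 - M ρ 2) ≤ K ρ z := by
  have hM : M ρ 1 + (2 - z) * (M ρ 1 - M ρ 2) =
      ∫ y in (0 : ℝ)..1, (y + (2 - z) * (y - y ^ 2)) * (J ρ).eval y := by
    have e : ∀ y : ℝ, (y + (2 - z) * (y - y ^ 2)) * (J ρ).eval y =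
        y ^ 1 * (J ρ).eval y + (2 - z) * (y ^ 1 * (J ρ).eval y - y ^ 2 * (J ρ).eval y) := by
      intro y; ring
    simp_rw [e]
    have i1 : IntervalIntegrable (fun y : ℝ => y ^ 1 * (J ρ).eval y) volume 0 1 :=
      (by fun_prop : Continuous fun y : ℝ => y ^ 1 * (J ρ).eval y).intervalIntegrable _ _
    have i2 : IntervalIntegrable (fun y : ℝ => y ^ 2 * (J ρ).eval y) volume 0 1 :=
      (by fun_prop : Continuous fun y : ℝ => y ^ 2 * (J ρ).eval y).intervalIntegrable _ _
    rw [intervalIntegral.integral_add i1 ((i1.sub i2).const_mul _),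
      intervalIntegral.integral_const_mul, intervalIntegral.integral_sub i1 i2]
    rfl
  rw [hM]
  unfold K
  apply intervalIntegral.integral_mono_on_of_le_Ioo zero_le_one
  · exact (by fun_prop : Continuous fun y : ℝ =>
      (y + (2 - z) * (y - y ^ 2)) * (J ρ).eval y).intervalIntegrable _ _
  · exact integrable_rpow_poly z (by linarith) _ (J ρ).continuous
  · intro x hx
    apply mul_le_mul_of_nonneg_right _ (J_nonneg hρ x hx.1.le hx.2.le)
    have h1 : x ^ (z - 1) = x * x ^ (z - 2) := by
      have : z - 1 = 1 + (z - 2) := by ring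
      rw [this, Real.rpow_add hx.1, Real.rpow_one]
    have h2 : 1 + (2 - z) * (1 - x) ≤ x ^ (z - 2) := by
      rw [Real.rpow_def_of_pos hx.1]
      have h3 := Real.add_one_le_exp (Real.log x * (z - 2))
      have h4 := Real.log_le_sub_one_of_pos hx.1
      nlinarith [mul_nonneg (sub_nonneg.2 hz1) (sub_nonneg.2 h4)]
    rw [h1]
    nlinarith [mul_le_mul_of_nonneg_left h2 hx.1.le]

theorem K_nat (n : ℕ) : K ρ (n + 1) = M ρ n := by
  unfold K M
  apply intervalIntegral.integral_congr
  intro y _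
  simp only
  rw [add_sub_cancel_right, Real.rpow_natCast]

end real

theorem stReal : StReal := fun _ hρ =>
  ⟨K_pos hρ, K_ge_one hρ, K_ge_two hρ, K_nat hρ⟩

end Pool.Agent.R737.PK
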